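import Pool.Agent.X190.NC.Main

set_option autoImplicit false
set_option linter.unusedSectionVars false

/-! Units of the group algebra of a locally indicable group. -/

namespace Pool.Agent.X190.NC

open Pool.Agent.W649.ZL

universe u v

section
variable {K : Type u} [Group K]

/-- the part of degree `m` -/
noncomputable def fl (e : K → ℤ) (m : ℤ) : MonoidAlgebra ℂ K →+ MonoidAlgebra ℂ K where
  toFun a := MonoidAlgebra.ofCoeff (a.coeff.filter (fun x => e x = m))
  map_zero' := by
    apply MonoidAlgebra.coeff_injective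
    change (0 : K →₀ ℂ).filter _ = 0
    exact Finsupp.filter_zero _
  map_add' a b := by
    apply MonoidAlgebra.coeff_injective
    change (a.coeff + b.coeff).filter _ = a.coeff.filter _ + b.coeff.filter _
    exact Finsupp.filter_add

theorem fl_single (e : K → ℤ) (m : ℤ) (x : K) (c : ℂ) :
    fl e m (MonoidAlgebra.single x c) = if e x = m then MonoidAlgebra.single x c else 0 := by
  apply MonoidAlgebra.coeff_injective
  change (Finsupp.single x c).filter _ = _
  split_ifs with h
  · exact Finsupp.filter_single_of_pos (fun x => e x = m) h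
  · exact Finsupp.filter_single_of_neg (fun x => e x = m) h

theorem fl_mul (e : K → ℤ) (he : ∀ x y, e (x * y) = e x + e y) (a b : MonoidAlgebra ℂ K)
    (m n : ℤ) (ha : ∀ x ∈ a.coeff.support, m ≤ e x) (hb : ∀ x ∈ b.coeff.support, n ≤ e x) :
    fl e (m + n) (a * b) = fl e m a * fl e n b := by
  classical
  have h1 : ∀ a b : MonoidAlgebra ℂ K, a * b = ∑ x ∈ a.coeff.support, ∑ y ∈ b.coeff.support,
      MonoidAlgebra.single (x * y) (a.coeff x * b.coeff y) := by
    intro a b
    rw [MonoidAlgebra.mul_def]
    rfl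
  have h2 : ∀ (a : MonoidAlgebra ℂ K) (m : ℤ), (fl e m a).coeff.support
      = a.coeff.support.filter (fun x => e x = m) := fun a m => Finsupp.support_filter _ _
  rw [h1 a b, map_sum, h1 (fl e m a), h2, h2, Finset.sum_filter]
  refine Finset.sum_congr rfl fun x hx => ?_
  rw [map_sum]
  by_cases hxm : e x = m
  · rw [if_pos hxm, Finset.sum_filter]
    refine Finset.sum_congr rfl fun y hy => ?_
    rw [fl_single, he]
    have e1 : (fl e m a).coeff x = a.coeff x := Finsupp.filter_apply_pos _ _ hxm
    by_cases hyn : e y = n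
    · have e2 : (fl e n b).coeff y = b.coeff y := Finsupp.filter_apply_pos _ _ hyn
      rw [if_pos (by rw [hxm, hyn]), if_pos hyn, e1, e2]
    · rw [if_neg (by rw [hxm]; omega), if_neg hyn]
  · rw [if_neg hxm]
    apply Finset.sum_eq_zero
    intro y hy
    rw [fl_single, he, if_neg]
    have h3 := ha x hx
    have h4 := hb y hy
    omega

/-- the lowest degree of a product with one term -/
theorem deg_eq (hK : AZ K) (e : K → ℤ) (he : ∀ x y, e (x * y) = e x + e y)
    (a b : MonoidAlgebra ℂ K) (s t : K) (hs : s ∈ a.coeff.support) (ht : t ∈ b.coeff.support)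
    (ha : ∀ x ∈ a.coeff.support, e s ≤ e x) (hb : ∀ x ∈ b.coeff.support, e t ≤ e x)
    (k : K) (c : ℂ) (hab : a * b = MonoidAlgebra.single k c) : e k = e s + e t := by
  by_contra hne
  have h1 := fl_mul e he a b (e s) (e t) ha hb
  rw [hab, fl_single, if_neg hne] at h1
  have h2 : fl e (e s) a ≠ 0 := by
    intro h0
    have h3 : (fl e (e s) a).coeff s = a.coeff s := Finsupp.filter_apply_pos _ _ rfl
    rw [h0] at h3
    exact (Finsupp.mem_support_iff.1 hs) h3.symm
  have h3 := hK.domain _ _ h1.symm h2
  have h4 : (fl e (e t) b).coeff t = b.coeff t := Finsupp.filter_apply_pos _ _ rfl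
  rw [h3] at h4
  exact (Finsupp.mem_support_iff.1 ht) h4.symm

end

theorem az_of_LI {H : Type u} [Group H] (hH : LI H) : AZ H :=
  fun a ha => LI_injective _ H hH a rfl ha

/-- pulling back an element to a subgroup which contains its support -/
theorem exists_inc {G : Type u} [Group G] (K : Subgroup G) (a : MonoidAlgebra ℂ G)
    (ha : ∀ x ∈ a.coeff.support, x ∈ K) : ∃ a' : MonoidAlgebra ℂ K, inc K a' = a := by
  classical
  refine ⟨∑ x : {x // x ∈ a.coeff.support}, MonoidAlgebra.single ⟨x.1, ha x.1 x.2⟩ (a.coeff x.1), ?_⟩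
  rw [map_sum]
  simp only [inc_single]
  have h1 : a = ∑ x ∈ a.coeff.support, MonoidAlgebra.single x (a.coeff x) := by
    apply MonoidAlgebra.coeff_injective
    conv_lhs => rw [← Finsupp.sum_single a.coeff]
    rw [Finsupp.sum]
    ext y
    rw [Finsupp.finsetSum_apply]
    have : ∀ s : Finset G, (∑ x ∈ s, MonoidAlgebra.single x (a.coeff x)).coeff y
        = ∑ x ∈ s, (Finsupp.single x (a.coeff x)) y := by
      intro s
      induction s using Finset.induction_on with
      | empty => simp
      | insert z s hz ih =>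
        rw [Finset.sum_insert hz, Finset.sum_insert hz, MonoidAlgebra.coeff_add,
          Finsupp.add_apply, ih]
        rfl
    rw [this]
  conv_rhs => rw [h1]
  exact Finset.sum_coe_sort a.coeff.support
    (fun x => (MonoidAlgebra.single x (a.coeff x) : MonoidAlgebra ℂ G))

theorem single_of_card {G : Type u} [Group G] (a : MonoidAlgebra ℂ G) (x : G)
    (h : ∀ y ∈ a.coeff.support, y = x) : a = MonoidAlgebra.single x (a.coeff x) := by
  classical
  apply MonoidAlgebra.coeff_injective
  ext y
  rw [MonoidAlgebra.coeff_single, Finsupp.single_apply]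
  split_ifs with hy
  · rw [hy]
  · by_contra hne
    exact hy (h y (Finsupp.mem_support_iff.2 hne)).symm

/-- If a product of two elements of the group algebra of a locally indicable group has only one
term, then so does the first factor. -/
theorem single_of_mul {H : Type u} [Group H] (hH : LI H) (a b : MonoidAlgebra ℂ H) (g : H) (c : ℂ)
    (hc : c ≠ 0) (hab : a * b = MonoidAlgebra.single g c) :
    ∃ (h : H) (d : ℂ), a = MonoidAlgebra.single h d := by
  classical
  have hne : MonoidAlgebra.single g c ≠ (0 : MonoidAlgebra ℂ H) := by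
    rw [Ne, MonoidAlgebra.single_eq_zero]
    exact hc
  have ha0 : a ≠ 0 := by
    rintro rfl
    rw [zero_mul] at hab
    exact hne hab.symm
  have hb0 : b ≠ 0 := by
    rintro rfl
    rw [mul_zero] at hab
    exact hne hab.symm
  obtain ⟨s, hs⟩ := Finsupp.support_nonempty_iff.2
    (fun h0 : a.coeff = 0 => ha0 (MonoidAlgebra.coeff_eq_zero.1 h0))
  obtain ⟨t, ht⟩ := Finsupp.support_nonempty_iff.2
    (fun h0 : b.coeff = 0 => hb0 (MonoidAlgebra.coeff_eq_zero.1 h0))
  set a' : MonoidAlgebra ℂ H := MonoidAlgebra.single s⁻¹ 1 * a with ha'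
  set b' : MonoidAlgebra ℂ H := b * MonoidAlgebra.single t⁻¹ 1 with hb'
  have hs1 : (1 : H) ∈ a'.coeff.support := by
    rw [Finsupp.mem_support_iff, ha', MonoidAlgebra.coeff_single_mul_apply, one_mul, inv_inv,
      mul_one]
    exact Finsupp.mem_support_iff.1 hs
  have ht1 : (1 : H) ∈ b'.coeff.support := by
    rw [Finsupp.mem_support_iff, hb', MonoidAlgebra.coeff_mul_single_apply, mul_one, inv_inv,
      one_mul]
    exact Finsupp.mem_support_iff.1 ht
  have hab' : a' * b' = MonoidAlgebra.single (s⁻¹ * g * t⁻¹) c := by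
    rw [ha', hb', mul_assoc, ← mul_assoc a, hab, MonoidAlgebra.single_mul_single,
      MonoidAlgebra.single_mul_single, one_mul, mul_one, ← mul_assoc]
  have haa : a = MonoidAlgebra.single s 1 * a' := by
    rw [ha', ← mul_assoc, MonoidAlgebra.single_mul_single, mul_inv_cancel, one_mul,
      ← MonoidAlgebra.one_def, one_mul]
  let K : Subgroup H := Subgroup.closure ((a'.coeff.support ∪ b'.coeff.support : Finset H) : Set H)
  have hKa : ∀ x ∈ a'.coeff.support, x ∈ K := fun x hx =>
    Subgroup.subset_closure (Finset.mem_coe.2 (Finset.mem_union_left _ hx))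
  have hKb : ∀ x ∈ b'.coeff.support, x ∈ K := fun x hx =>
    Subgroup.subset_closure (Finset.mem_coe.2 (Finset.mem_union_right _ hx))
  by_cases hbot : K = ⊥
  · have h1 : ∀ y ∈ a'.coeff.support, y = 1 := by
      intro y hy
      have := hKa y hy
      rw [hbot, Subgroup.mem_bot] at this
      exact this
    refine ⟨s, a'.coeff 1, ?_⟩
    conv_lhs => rw [haa, single_of_card a' 1 h1]
    rw [MonoidAlgebra.single_mul_single, mul_one, one_mul]
  · exfalso
    obtain ⟨φ, k0, hk0⟩ := hH K ⟨_, rfl⟩ hbot
    obtain ⟨a2, ha2⟩ := exists_inc K a' hKa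
    obtain ⟨b2, hb2⟩ := exists_inc K b' hKb
    have hcoe : ∀ (x : K) (z : MonoidAlgebra ℂ K), (inc K z).coeff (x : H) = z.coeff x := by
      intro x z
      rw [inc_coeff]
      exact Finsupp.mapDomain_apply K.subtype_injective _ _
    have hsa : ∀ x : K, x ∈ a2.coeff.support ↔ (x : H) ∈ a'.coeff.support := by
      intro x
      rw [Finsupp.mem_support_iff, Finsupp.mem_support_iff, ← ha2, hcoe]
    have hsb : ∀ x : K, x ∈ b2.coeff.support ↔ (x : H) ∈ b'.coeff.support := by
      intro x
      rw [Finsupp.mem_support_iff, Finsupp.mem_support_iff, ← hb2, hcoe]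
    have h1a : (1 : K) ∈ a2.coeff.support := (hsa 1).2 hs1
    have h1b : (1 : K) ∈ b2.coeff.support := (hsb 1).2 ht1
    have hprod : inc K (a2 * b2) = MonoidAlgebra.single (s⁻¹ * g * t⁻¹) c := by
      rw [map_mul, ha2, hb2, hab']
    have hgK : s⁻¹ * g * t⁻¹ ∈ K := by
      by_contra hcon
      have h3 := congrArg (fun z : MonoidAlgebra ℂ H => z.coeff (s⁻¹ * g * t⁻¹)) hprod
      simp only [MonoidAlgebra.coeff_single, Finsupp.single_eq_same] at h3
      rw [inc_coeff, Finsupp.mapDomain_of_notMem_range] at h3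
      · exact hc h3.symm
      · rintro ⟨x, hx⟩
        apply hcon
        rw [← hx]
        exact x.2
    set k : K := ⟨s⁻¹ * g * t⁻¹, hgK⟩ with hk
    have hprod2 : a2 * b2 = MonoidAlgebra.single k c := by
      apply inc_injective K
      rw [hprod, inc_single]
    have hAK : AZ K := az_of_LI (hH.subgroup K)
    let e : K → ℤ := fun k => Multiplicative.toAdd (φ k)
    have he : ∀ x y, e (x * y) = e x + e y := by
      intro x y
      simp only [e]
      rw [map_mul, toAdd_mul]
    have he1 : e 1 = 0 := by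
      have := he 1 1
      rw [mul_one] at this
      omega
    obtain ⟨s1, hs1', hmin1⟩ := Finset.exists_min_image a2.coeff.support e ⟨1, h1a⟩
    obtain ⟨t1, ht1', hmin2⟩ := Finset.exists_min_image b2.coeff.support e ⟨1, h1b⟩
    obtain ⟨s2, hs2', hmax1⟩ := Finset.exists_max_image a2.coeff.support e ⟨1, h1a⟩
    obtain ⟨t2, ht2', hmax2⟩ := Finset.exists_max_image b2.coeff.support e ⟨1, h1b⟩
    have q1 := deg_eq hAK e he a2 b2 s1 t1 hs1' ht1' hmin1 hmin2 k c hprod2
    have q2 := deg_eq hAK (fun x => - e x) (fun x y => by rw [he]; ring) a2 b2 s2 t2 hs2' ht2'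
      (fun x hx => neg_le_neg (hmax1 x hx)) (fun x hx => neg_le_neg (hmax2 x hx)) k c hprod2
    have r1 := hmin1 s2 hs2'
    have r2 := hmin2 t2 ht2'
    have r3 := hmin1 1 h1a
    have r4 := hmax1 1 h1a
    have r5 := hmin2 1 h1b
    have r6 := hmax2 1 h1b
    have hall : ∀ x ∈ a2.coeff.support, e x = 0 := by
      intro x hx
      have := hmin1 x hx
      have := hmax1 x hx
      omega
    have hall2 : ∀ x ∈ b2.coeff.support, e x = 0 := by
      intro x hx
      have := hmin2 x hx
      have := hmax2 x hx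
      omega
    have hker : K ≤ (φ.ker).map K.subtype := by
      rw [Subgroup.closure_le]
      intro x hx
      rcases Finset.mem_union.1 (Finset.mem_coe.1 hx) with hx | hx
      · refine ⟨⟨x, hKa x hx⟩, ?_, rfl⟩
        have h2 := hall ⟨x, hKa x hx⟩ ((hsa _).2 hx)
        change φ _ = 1
        exact Multiplicative.toAdd.injective h2
      · refine ⟨⟨x, hKb x hx⟩, ?_, rfl⟩
        have h2 := hall2 ⟨x, hKb x hx⟩ ((hsb _).2 hx)
        change φ _ = 1
        exact Multiplicative.toAdd.injective h2
    obtain ⟨k1, hk1, hk2⟩ := hker k0.2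
    apply hk0
    have : k1 = k0 := Subtype.ext hk2
    rw [← this]
    exact hk1

/-- the units are trivial -/
theorem tu_of_LI {H : Type u} [Group H] (hH : LI H) : TU H := by
  intro u
  refine single_of_mul hH (u : MonoidAlgebra ℂ H) (u⁻¹ : (MonoidAlgebra ℂ H)ˣ) 1 1 one_ne_zero ?_
  rw [Units.mul_inv, MonoidAlgebra.one_def]

end Pool.Agent.X190.NC
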