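import Pool.Agent.X190.NC.Norm

set_option autoImplicit false
set_option linter.unusedSectionVars false

open scoped InnerProductSpace InnerProduct ENNReal

/-! Elements supported on a subgroup and one more element which normalises it. -/

namespace Pool.Agent.X190.NC

open Pool.Agent.W649.ZL

universe u v

section
variable {G : Type u} [Group G] (H : Subgroup G)

/-- the inclusion of the group algebras -/
noncomputable def inc : MonoidAlgebra ℂ H →ₐ[ℂ] MonoidAlgebra ℂ G :=
  MonoidAlgebra.mapDomainAlgHom ℂ ℂ H.subtype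

theorem inc_single (h : H) (c : ℂ) : inc H (MonoidAlgebra.single h c)
    = MonoidAlgebra.single (h : G) c := by
  unfold inc
  rw [MonoidAlgebra.mapDomainAlgHom_apply, MonoidAlgebra.mapDomain_single]
  rfl

theorem inc_coeff (a : MonoidAlgebra ℂ H) : (inc H a).coeff = a.coeff.mapDomain H.subtype := by
  unfold inc
  rw [MonoidAlgebra.mapDomainAlgHom_apply]
  rfl

theorem inc_injective : Function.Injective (inc H) := by
  intro a b hab
  have h1 := congrArg MonoidAlgebra.coeff hab
  rw [inc_coeff, inc_coeff] at h1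
  exact MonoidAlgebra.coeff_injective (Finsupp.mapDomain_injective H.subtype_injective h1)

theorem zpow_normal {H : Subgroup G} {x : G} (hx : ∀ h, h ∈ H ↔ x * h * x⁻¹ ∈ H) (n : ℤ) (h : G) :
    h ∈ H ↔ x ^ n * h * (x ^ n)⁻¹ ∈ H := by
  have h1 : x ∈ Subgroup.normalizer (H : Set G) := Subgroup.mem_normalizer_iff.2 hx
  have h2 := (Subgroup.normalizer (H : Set G)).zpow_mem h1 n
  exact Subgroup.mem_normalizer_iff.1 h2 h

theorem cj_mem {H : Subgroup G} {x : G} (hx : ∀ h, h ∈ H ↔ x * h * x⁻¹ ∈ H) (b : MonoidAlgebra ℂ H)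
    (k : ℕ) : ∃ b' : MonoidAlgebra ℂ H, inc H b' = cj x (inc H b) k := by
  induction b using MonoidAlgebra.induction_linear with
  | zero => exact ⟨0, by unfold cj; rw [map_zero, mul_zero, zero_mul]⟩
  | add a b ha hb =>
    obtain ⟨a', ha'⟩ := ha
    obtain ⟨b', hb'⟩ := hb
    refine ⟨a' + b', ?_⟩
    rw [map_add, ha', hb']
    unfold cj
    rw [map_add, mul_add, add_mul]
  | single h c =>
    have h1 : x ^ k * (h : G) * (x ^ k)⁻¹ ∈ H := by
      have := (zpow_normal hx k (h : G)).1 h.2
      rwa [zpow_natCast] at this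
    refine ⟨MonoidAlgebra.single ⟨_, h1⟩ c, ?_⟩
    unfold cj
    rw [inc_single, inc_single, MonoidAlgebra.single_mul_single, MonoidAlgebra.single_mul_single,
      one_mul, mul_one]

theorem cj_zero (x : G) (β : MonoidAlgebra ℂ G) : cj x β 0 = β := by
  unfold cj
  rw [pow_zero, inv_one, ← MonoidAlgebra.one_def, one_mul, mul_one]

/-- `σ^{n}(β) ⋯ σ(β) β = u β` -/
theorem pr_mem {H : Subgroup G} {x : G} (hx : ∀ h, h ∈ H ↔ x * h * x⁻¹ ∈ H) (b : MonoidAlgebra ℂ H)
    (n : ℕ) : ∃ u : MonoidAlgebra ℂ H, inc H (u * b) = pr x (inc H b) (n + 1) := by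
  induction n with
  | zero =>
    refine ⟨1, ?_⟩
    rw [one_mul]
    change inc H b = cj x (inc H b) 0 * 1
    rw [cj_zero, mul_one]
  | succ n ih =>
    obtain ⟨u, hu⟩ := ih
    obtain ⟨b', hb'⟩ := cj_mem hx b (n + 1)
    refine ⟨b' * u, ?_⟩
    change _ = cj x (inc H b) (n + 1) * pr x (inc H b) (n + 1)
    rw [← hu, ← hb', mul_assoc, map_mul]

/-- nonzero elements of the group algebra act injectively -/
def AZ (H : Type u) [Group H] : Prop := ∀ a : H →₀ ℂ, a ≠ 0 → Function.Injective (cop a)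

/-- the units of the group algebra are trivial -/
def TU (H : Type u) [Group H] : Prop :=
  ∀ u : (MonoidAlgebra ℂ H)ˣ, ∃ (h : H) (c : ℂ), (u : MonoidAlgebra ℂ H) = MonoidAlgebra.single h c

theorem AZ.domain {H : Type u} [Group H] (hH : AZ H) (a b : MonoidAlgebra ℂ H) (h : a * b = 0)
    (ha : a ≠ 0) : b = 0 := by
  have h1 : a.coeff ≠ 0 := fun h0 => ha (MonoidAlgebra.coeff_eq_zero.1 h0)
  have h2 := hH a.coeff h1
  apply MonoidAlgebra.coeff_eq_zero.1
  apply eq_zero_of_cop
  ext1 f
  apply h2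
  rw [← cop_mul, h]
  change cop (0 : H →₀ ℂ) f = cop a.coeff 0
  rw [map_zero, map_zero]
  rfl

/-- two terms -/
theorem two_terms (g h : G) (a c : ℂ) (ha : a ≠ 0) (hgh : ¬ IsOfFinOrder (h⁻¹ * g)) :
    Function.Injective (cop (Finsupp.single h a + Finsupp.single g c)) := by
  have h1 : Finsupp.single h a + Finsupp.single g c
      = (Finsupp.single (1 : G) a + Finsupp.single (h⁻¹ * g) c).mapDomain (fun x => h * x) := by
    rw [Finsupp.mapDomain_add, Finsupp.mapDomain_single, Finsupp.mapDomain_single, mul_one,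
      mul_inv_cancel_left]
  rw [h1, cop_mapDomain]
  refine (Ltr_injective h).comp ?_
  rw [map_add, cop_single, cop_single, Ltr_one]
  by_cases hc : c = 0
  · rw [hc, zero_smul, add_zero]
    intro f g hfg
    exact smul_right_injective _ ha hfg
  · have h2 := Ltr_sub_injective (h⁻¹ * g) hgh (-(a / c))
    intro f f' hff
    apply h2
    have h3 : ∀ f : EE G Unit, (Ltr (h⁻¹ * g) - (-(a / c)) • ContinuousLinearMap.id ℂ (EE G Unit)) f
        = c⁻¹ • ((a • ContinuousLinearMap.id ℂ (EE G Unit) + c • Ltr (h⁻¹ * g)) f) := by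
      intro f
      change Ltr (h⁻¹ * g) f - (-(a / c)) • f = c⁻¹ • (a • f + c • Ltr (h⁻¹ * g) f)
      rw [smul_add, smul_smul, smul_smul, inv_mul_cancel₀ hc, one_smul, neg_smul, sub_neg_eq_add,
        add_comm, div_eq_inv_mul]
    rw [h3, h3]
    exact congrArg (fun z : EE G Unit => c⁻¹ • z) hff

/-- the case in which some power of `x` lies in `H` -/
theorem finite_case {H : Subgroup G} {x : G} (hx : ∀ h, h ∈ H ↔ x * h * x⁻¹ ∈ H) (hA : AZ H)
    (hT : TU H) (n : ℕ) (hn : x ^ (n + 1) ∈ H) (b : MonoidAlgebra ℂ H) (c : ℂ) (hc : c ≠ 0) :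
    Function.Injective (cop (MonoidAlgebra.single x c + inc H b).coeff) ∨
      ∃ (h : H) (a : ℂ), a ≠ 0 ∧ b = MonoidAlgebra.single h a := by
  obtain ⟨γ, hγ⟩ := exists_left x c (inc H b) (n + 1)
  obtain ⟨u, hu⟩ := pr_mem hx b n
  set N : MonoidAlgebra ℂ H := MonoidAlgebra.single ⟨x ^ (n + 1), hn⟩ (c ^ (n + 1))
    - (-1) ^ (n + 1) * (u * b) with hN
  have hincN : inc H N = γ * (MonoidAlgebra.single x c + inc H b) := by
    rw [hγ, hN, map_sub, inc_single, map_mul, map_pow, map_neg, map_one, hu]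
  by_cases hN0 : N = 0
  · right
    have h1 : (-1) ^ (n + 1) * (u * b)
        = MonoidAlgebra.single (⟨x ^ (n + 1), hn⟩ : H) (c ^ (n + 1)) := by
      rw [hN, sub_eq_zero] at hN0
      exact hN0.symm
    set t : H := ⟨x ^ (n + 1), hn⟩ with ht
    have hcn : c ^ (n + 1) ≠ 0 := pow_ne_zero _ hc
    set v : MonoidAlgebra ℂ H := MonoidAlgebra.single t⁻¹ (c ^ (n + 1))⁻¹ * ((-1) ^ (n + 1) * u)
      with hv
    have hvb : v * b = 1 := by
      rw [hv, mul_assoc, mul_assoc, h1, MonoidAlgebra.single_mul_single, inv_mul_cancel,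
        inv_mul_cancel₀ hcn, MonoidAlgebra.one_def]
    have hb0 : b ≠ 0 := by
      intro h0
      rw [h0, mul_zero] at hvb
      have h2 := congrArg (fun a : MonoidAlgebra ℂ H => a.coeff 1) hvb
      simp only [MonoidAlgebra.coeff_one_one] at h2
      exact zero_ne_one h2
    have hbv : b * v = 1 := by
      have h2 : v * (b * v - 1) = 0 := by
        rw [mul_sub, ← mul_assoc, hvb, one_mul, mul_one, sub_self]
      have hv0 : v ≠ 0 := by
        intro h0
        rw [h0, zero_mul] at hvb
        have h2 := congrArg (fun a : MonoidAlgebra ℂ H => a.coeff 1) hvb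
        simp only [MonoidAlgebra.coeff_one_one] at h2
        exact zero_ne_one h2
      exact sub_eq_zero.1 (hA.domain _ _ h2 hv0)
    obtain ⟨h, a, ha⟩ := hT ⟨b, v, hbv, hvb⟩
    refine ⟨h, a, ?_, ha⟩
    rintro rfl
    apply hb0
    change b = _ at ha
    rw [ha, MonoidAlgebra.single_zero]
  · left
    have h1 : N.coeff ≠ 0 := fun h0 => hN0 (MonoidAlgebra.coeff_eq_zero.1 h0)
    have h2 := injective_of_hom H.subtype H.subtype_injective N.coeff (hA _ h1)
    rw [← inc_coeff, hincN] at h2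
    intro f f' hff
    apply h2
    rw [cop_mul, cop_mul, hff]

/-! the case in which no power of `x` lies in `H` -/

/-- the group of the `x^n h` -/
def KK (H : Subgroup G) (x : G) (hx : ∀ h, h ∈ H ↔ x * h * x⁻¹ ∈ H) : Subgroup G where
  carrier := {g | ∃ n : ℤ, x ^ (-n) * g ∈ H}
  one_mem' := ⟨0, by simpa using H.one_mem⟩
  mul_mem' := by
    rintro a b ⟨n, hn⟩ ⟨m, hm⟩
    refine ⟨n + m, ?_⟩
    have h1 := (zpow_normal hx (-m) _).1 hn
    have h2 := H.mul_mem h1 hm
    have e : x ^ (-(n + m)) * (a * b)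
        = x ^ (-m) * (x ^ (-n) * a) * (x ^ (-m))⁻¹ * (x ^ (-m) * b) := by
      rw [neg_add, add_comm (-n) (-m), zpow_add]
      group
    rw [e]
    exact h2
  inv_mem' := by
    rintro a ⟨n, hn⟩
    refine ⟨-n, ?_⟩
    have h1 := H.inv_mem hn
    have h2 := (zpow_normal hx n _).1 h1
    have e : x ^ (-(-n)) * a⁻¹ = x ^ n * (x ^ (-n) * a)⁻¹ * (x ^ n)⁻¹ := by
      group
    rw [e]
    exact h2

theorem infinite_case {H : Subgroup G} {x : G} (hx : ∀ h, h ∈ H ↔ x * h * x⁻¹ ∈ H) (hA : AZ H)
    (hn : ∀ n : ℕ, x ^ (n + 1) ∉ H) (b : MonoidAlgebra ℂ H) (c : ℂ) (hb : b ≠ 0) :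
    Function.Injective (cop (MonoidAlgebra.single x c + inc H b).coeff) := by
  classical
  have hz : ∀ n : ℤ, x ^ n ∈ H → n = 0 := by
    intro n h
    by_contra hne
    rcases lt_or_gt_of_ne hne with h1 | h1
    · apply hn ((-n).toNat - 1)
      have h2 := H.inv_mem h
      rw [← zpow_neg] at h2
      rw [Nat.sub_add_cancel (by omega), ← zpow_natCast, Int.toNat_of_nonneg (by omega)]
      exact h2
    · apply hn (n.toNat - 1)
      rw [Nat.sub_add_cancel (by omega), ← zpow_natCast, Int.toNat_of_nonneg (by omega)]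
      exact h
  set K := KK H x hx with hK
  have hex : ∀ g : K, ∃ n : ℤ, x ^ (-n) * (g : G) ∈ H := fun g => g.2
  choose e he using hex
  have huniq : ∀ (g : K) (n : ℤ), x ^ (-n) * (g : G) ∈ H → e g = n := by
    intro g n h
    have h1 := H.mul_mem (he g) (H.inv_mem h)
    have e1 : x ^ (-e g) * (g : G) * (x ^ (-n) * (g : G))⁻¹ = x ^ (-e g + n) := by
      rw [zpow_add]
      group
    rw [e1] at h1
    have := hz _ h1
    omega
  have hadd : ∀ g k : K, e (g * k) = e g + e k := by
    intro g k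
    apply huniq
    have h1 := (zpow_normal hx (-e k) _).1 (he g)
    have h2 := H.mul_mem h1 (he k)
    have e1 : x ^ (-(e g + e k)) * ((g * k : K) : G)
        = x ^ (-e k) * (x ^ (-e g) * (g : G)) * (x ^ (-e k))⁻¹ * (x ^ (-e k) * (k : G)) := by
      rw [neg_add, add_comm (-e g) (-e k), zpow_add, Subgroup.coe_mul]
      group
    rw [e1]
    exact h2
  have hHK : H ≤ K := fun h hh => ⟨0, by simpa using hh⟩
  have hxK : x ∈ K := ⟨1, by simpa using H.one_mem⟩
  have hex0 : ∀ h : H, e (Subgroup.inclusion hHK h) = 0 := by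
    intro h
    apply huniq
    simpa using h.2
  have hex1 : e ⟨x, hxK⟩ = 1 := by
    apply huniq
    simpa using H.one_mem
  -- the element in the group algebra of `K`
  set α : K →₀ ℂ := Finsupp.single ⟨x, hxK⟩ c + b.coeff.mapDomain (Subgroup.inclusion hHK) with hα
  have h1 : (MonoidAlgebra.single x c + inc H b).coeff = α.mapDomain K.subtype := by
    rw [MonoidAlgebra.coeff_add, inc_coeff, MonoidAlgebra.coeff_single, hα, Finsupp.mapDomain_add,
      Finsupp.mapDomain_single, ← Finsupp.mapDomain_comp]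
    rfl
  rw [h1]
  apply injective_of_hom K.subtype K.subtype_injective
  have hinj := injective_of_hom (Subgroup.inclusion hHK) (Subgroup.inclusion_injective hHK) b.coeff
    (hA _ (fun h0 => hb (MonoidAlgebra.coeff_eq_zero.1 h0)))
  have hsb : ∀ t ∈ (b.coeff.mapDomain (Subgroup.inclusion hHK)).support, e t = 0 := by
    intro t ht
    obtain ⟨s, _, rfl⟩ := Finset.mem_image.1 (Finsupp.mapDomain_support ht)
    exact hex0 s
  have hlead := lead e hadd α 0 (by
    intro t ht
    rcases Finset.mem_union.1 (Finsupp.support_add ht) with h2 | h2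
    · have := Finsupp.support_single_subset h2
      rw [Finset.mem_singleton] at this
      rw [this, hex1]
      norm_num
    · rw [hsb t h2])
  have hfil : α.filter (fun t => e t = 0) = b.coeff.mapDomain (Subgroup.inclusion hHK) := by
    rw [hα, Finsupp.filter_add, Finsupp.filter_single_of_neg, zero_add]
    · rw [Finsupp.filter_eq_self_iff]
      intro t ht
      exact hsb t (Finsupp.mem_support_iff.2 ht)
    · rw [hex1]
      norm_num
  rw [hfil, vd_ker_of_injective _ hinj] at hlead
  exact injective_of_vd_eq_zero _ (cop_eqv α) hlead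

/-- **Main theorem.** -/
theorem main {H : Subgroup G} {x : G} (hx : ∀ h, h ∈ H ↔ x * h * x⁻¹ ∈ H) (hA : AZ H)
    (hT : TU H) (b : MonoidAlgebra ℂ H) (c : ℂ) (hc : c ≠ 0)
    (hbad : ∀ (h : H) (a : ℂ), a ≠ 0 → b = MonoidAlgebra.single h a →
      ¬ IsOfFinOrder ((h : G)⁻¹ * x)) :
    Function.Injective (cop (MonoidAlgebra.single x c + inc H b).coeff) := by
  by_cases hb : b = 0
  · rw [hb, map_zero, add_zero, MonoidAlgebra.coeff_single, cop_single]
    intro f f' hff
    apply Ltr_injective x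
    exact smul_right_injective _ hc hff
  · have htwo : ∀ (h : H) (a : ℂ), a ≠ 0 → b = MonoidAlgebra.single h a →
        Function.Injective (cop (MonoidAlgebra.single x c + inc H b).coeff) := by
      intro h a ha hba
      rw [hba, inc_single, MonoidAlgebra.coeff_add, MonoidAlgebra.coeff_single,
        MonoidAlgebra.coeff_single, add_comm]
      exact two_terms x h a c ha (hbad h a ha hba)
    by_cases hn : ∀ n : ℕ, x ^ (n + 1) ∉ H
    · exact infinite_case hx hA hn b c hb
    · push Not at hn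
      obtain ⟨n, hn⟩ := hn
      rcases finite_case hx hA hT n hn b c hc with h1 | ⟨h, a, ha, hba⟩
      · exact h1
      · exact htwo h a ha hba

end

end Pool.Agent.X190.NC
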