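import Pool.Agent.W649.ZL.Supp

set_option autoImplicit false
set_option linter.unusedSectionVars false

open scoped InnerProductSpace InnerProduct ENNReal

/-! Elements supported on a subgroup and one more element which normalises it. -/

namespace Pool.Agent.X190.NC

open Pool.Agent.W649.ZL

universe u v

section
variable {G : Type u} [Group G]

/-- the left regular representation -/
noncomputable def LtrHom : G →* (EE G Unit →L[ℂ] EE G Unit) where
  toFun := Ltr
  map_one' := Ltr_one
  map_mul' := fun s t => Ltr_mul s t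

/-- left convolution as a homomorphism of algebras -/
noncomputable def cm : MonoidAlgebra ℂ G →ₐ[ℂ] (EE G Unit →L[ℂ] EE G Unit) :=
  MonoidAlgebra.lift ℂ (EE G Unit →L[ℂ] EE G Unit) G LtrHom

theorem cm_eq (a : MonoidAlgebra ℂ G) : cm a = cop a.coeff := by
  unfold cm cop
  rw [MonoidAlgebra.lift_apply, Finsupp.linearCombination_apply]
  rfl

theorem cop_mul (a b : MonoidAlgebra ℂ G) (f : EE G Unit) :
    cop (a * b).coeff f = cop a.coeff (cop b.coeff f) := by
  rw [← cm_eq, map_mul, cm_eq, cm_eq]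
  rfl

theorem cop_dl (a : G →₀ ℂ) (x : G) : cop a (dl ((1 : G), ())) (x, ()) = a x := by
  classical
  rw [cop_apply]
  by_cases hx : x ∈ a.support
  · rw [Finset.sum_eq_single x]
    · rw [inv_mul_cancel, dl_apply_self, mul_one]
    · intro y _ hy
      rw [dl_apply_ne, mul_zero]
      intro h
      have h1 : y⁻¹ * x = 1 := congrArg Prod.fst h
      exact hy (inv_mul_eq_one.1 h1)
    · intro h; exact absurd hx h
  · rw [Finsupp.notMem_support_iff.1 hx]
    apply Finset.sum_eq_zero
    intro y hy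
    rw [dl_apply_ne, mul_zero]
    intro h
    have h1 : y⁻¹ * x = 1 := congrArg Prod.fst h
    exact hx (by rw [← inv_mul_eq_one.1 h1]; exact hy)

theorem eq_zero_of_cop (a : G →₀ ℂ) (h : cop a = 0) : a = 0 := by
  ext x
  rw [← cop_dl, h]
  rfl

/-- Passing from a group to an overgroup. -/
theorem injective_of_hom {H : Type v} [Group H] (j : H →* G) (hj : Function.Injective j)
    (a : H →₀ ℂ) (h : Function.Injective (cop a)) : Function.Injective (cop (a.mapDomain j)) := by
  classical
  rw [injective_iff_map_eq_zero]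
  intro F hF
  ext ⟨x, ⟨⟩⟩
  have hmem : Memℓp (fun k : H × Unit => F (j k.1 * x, ())) 2 := by
    rw [memlp_two_iff]
    have h1 := (memlp_two_iff _).1 F.2
    exact h1.comp_injective (i := fun k : H × Unit => ((j k.1 * x, ()) : G × Unit)) (by
      rintro ⟨a, ⟨⟩⟩ ⟨b, ⟨⟩⟩ hab
      simp only [Prod.mk.injEq, and_true, mul_left_inj] at hab
      rw [hj hab])
  let Fx : EE H Unit := ⟨fun k => F (j k.1 * x, ()), hmem⟩
  have h0 : cop a Fx = 0 := by
    ext ⟨k, ⟨⟩⟩
    rw [cop_apply]
    have h2 := cop_apply (a.mapDomain j) F (j k * x)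
    rw [hF] at h2
    have h3 : (0 : ℂ) = (a.mapDomain j).sum (fun t c => c * F (t⁻¹ * (j k * x), ())) := h2
    rw [Finsupp.sum_mapDomain_index (by intros; rw [zero_mul]) (by intros; rw [add_mul])] at h3
    change _ = (0 : ℂ)
    rw [h3]
    refine Finset.sum_congr rfl fun t _ => ?_
    change a t * F (j (t⁻¹ * k) * x, ()) = _
    rw [map_mul, map_inv, mul_assoc]
  have h1 : Fx = 0 := h (by rw [h0, map_zero])
  have h2 := congrArg (fun H : EE H Unit => H (1, ())) h1
  have h3 : F (j 1 * x, ()) = 0 := h2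
  rw [map_one, one_mul] at h3
  exact h3

/-- `x^k β x^{-k}` -/
noncomputable def cj (x : G) (β : MonoidAlgebra ℂ G) (k : ℕ) : MonoidAlgebra ℂ G :=
  MonoidAlgebra.single (x ^ k) 1 * β * MonoidAlgebra.single (x ^ k)⁻¹ 1

/-- `σ^{n-1}(β) ⋯ σ(β) β` -/
noncomputable def pr (x : G) (β : MonoidAlgebra ℂ G) : ℕ → MonoidAlgebra ℂ G
  | 0 => 1
  | n + 1 => cj x β n * pr x β n

theorem exists_left (x : G) (c : ℂ) (β : MonoidAlgebra ℂ G) (n : ℕ) :
    ∃ γ : MonoidAlgebra ℂ G, γ * (MonoidAlgebra.single x c + β)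
      = MonoidAlgebra.single (x ^ n) (c ^ n) - (-1) ^ n * pr x β n := by
  induction n with
  | zero =>
    refine ⟨0, ?_⟩
    rw [zero_mul, pow_zero, pow_zero, pow_zero, one_mul, ← MonoidAlgebra.one_def]
    exact (sub_self _).symm
  | succ n ih =>
    obtain ⟨γ, hγ⟩ := ih
    refine ⟨MonoidAlgebra.single (x ^ n) (c ^ n) - cj x β n * γ, ?_⟩
    have h1 : MonoidAlgebra.single (x ^ n) (c ^ n) * β
        = cj x β n * MonoidAlgebra.single (x ^ n) (c ^ n) := by
      unfold cj
      rw [mul_assoc, MonoidAlgebra.single_mul_single, inv_mul_cancel, one_mul]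
      have e1 : (MonoidAlgebra.single (1 : G) (c ^ n) : MonoidAlgebra ℂ G)
          = algebraMap ℂ (MonoidAlgebra ℂ G) (c ^ n) := rfl
      have e2 : (MonoidAlgebra.single (x ^ n) (c ^ n) : MonoidAlgebra ℂ G)
          = algebraMap ℂ (MonoidAlgebra ℂ G) (c ^ n) * MonoidAlgebra.single (x ^ n) 1 := by
        rw [← e1, MonoidAlgebra.single_mul_single, one_mul, mul_one]
      rw [e1, e2, ← Algebra.commutes, mul_assoc]
    rw [sub_mul, mul_assoc, hγ, mul_add, MonoidAlgebra.single_mul_single, h1, mul_sub, ← pow_succ,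
      ← pow_succ]
    have h2 : cj x β n * ((-1) ^ n * pr x β n) = (-1) ^ n * pr x β (n + 1) := by
      change _ = (-1) ^ n * (cj x β n * pr x β n)
      rw [← mul_assoc, ← mul_assoc]
      congr 1
      exact (Commute.pow_left (Commute.neg_one_left _) n).eq.symm
    rw [h2, pow_succ (-1 : MonoidAlgebra ℂ G) n]
    noncomm_ring

end

end Pool.Agent.X190.NC
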